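import Pool.Agent.W516.MTH.Defs

/-!
# Linear relations between the periods of mixed Tate motives
-/

set_option autoImplicit false

namespace Pool.Agent.W516.MTG

open Matrix Pool.Agent.W516.MTZ Pool.Agent.W516.MTH

variable {m : Type} [Fintype m]

/-- The matrix `B` satisfies all linear relations with rational coefficients between the entries of
`p` (of any weights). -/
def AllSatisfies (p B : Matrix m m ℂ) : Prop :=
  ∀ c : m → m → ℚ, ∑ i, ∑ j, (c i j : ℂ) * p i j = 0 → ∑ i, ∑ j, (c i j : ℂ) * B i j = 0

end Pool.Agent.W516.MTG
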