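import Pool.Agent.W516.MTG.Stm
import Pool.Agent.W516.MTH.Sv
import Pool.Agent.W516.MTZ.Main
import Pool.Agent.W906.MTZ.TOR

/-!
# Linear relations between periods of any weights
-/

set_option autoImplicit false
set_option linter.unusedSectionVars false

namespace Pool.Agent.W516.MTG

open Matrix Pool.Agent.W516.MTZ Pool.Agent.W516.MTH

variable {m X : Type} [Fintype m] [DecidableEq m] [Fintype X] [DecidableEq X]

/-- The space of the matrices which satisfy all relations. -/
def ASat (p : Matrix m m ℂ) : Submodule ℂ (Matrix m m ℂ) where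
  carrier := {B | AllSatisfies p B}
  zero_mem' := by
    intro c _
    simp
  add_mem' := by
    intro A B hA hB c h
    have h1 := hA c h
    have h2 := hB c h
    simp only [Matrix.add_apply, mul_add, Finset.sum_add_distrib]
    rw [h1, h2, add_zero]
  smul_mem' := by
    intro e A hA c h
    have h1 := hA c h
    have h2 : ∀ i, ∑ j, (c i j : ℂ) * (e • A) i j = e * ∑ j, (c i j : ℂ) * A i j := by
      intro i
      rw [Finset.mul_sum]
      refine Finset.sum_congr rfl fun j _ => ?_
      rw [Matrix.smul_apply, smul_eq_mul]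
      ring
    simp only [h2]
    rw [← Finset.mul_sum, h1, mul_zero]

theorem mem_ASat {p B : Matrix m m ℂ} : B ∈ ASat p ↔ AllSatisfies p B := Iff.rfl

theorem oo_one {M : Motive m X} {g : (Matrix m m ℂ)ˣ} (hg : g ∈ M.gp) :
    (g : Matrix m m ℂ) M.o M.o = 1 := by
  have h := ((Pool.Agent.W804.MTZ.T_FIT m X M).1 g hg).co M.o
  rw [h, if_pos rfl]

theorem graded_iff (hDir : StDir) (hInd : StInd) {M : Motive m X} {p : (Matrix m m ℂ)ˣ}
    (hp : p ∈ M.gp) :
    (DimensionConjecture M (p : Matrix m m ℂ) ∧ iSupIndep (periods M (p : Matrix m m ℂ))) ↔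
      ∀ g ∈ M.gp, AllSatisfies (p : Matrix m m ℂ) (g : Matrix m m ℂ) := by
  rw [dim_iff Pool.Agent.W768.MTH.T_DIM hp]
  constructor
  · rintro ⟨h1, h2⟩
    exact hDir m X M p hp h1 h2
  · intro h
    exact ⟨fun g hg n c _ h0 => h g hg c h0, hInd m X M p hp h⟩

theorem main_graded (hDir : StDir) (hInd : StInd) {M : Motive m X} {p : (Matrix m m ℂ)ˣ}
    (hp : p ∈ M.gp) (hdeg : ∀ x, Odd (M.deg x) ∧ 3 ≤ M.deg x) (hinj : Function.Injective M.deg)
    (hpi : (p : Matrix m m ℂ) M.t M.t = 2 * Real.pi * Complex.I)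
    (hzeta : ∀ x, (p : Matrix m m ℂ) M.o (M.s x) = riemannZeta (M.deg x)) :
    (DimensionConjecture M (p : Matrix m m ℂ) ∧ iSupIndep (periods M (p : Matrix m m ℂ))) ↔
      (∀ A B : Matrix m m ℂ, AllSatisfies (p : Matrix m m ℂ) (p * A) →
        AllSatisfies (p : Matrix m m ℂ) (p * B) →
          AllSatisfies (p : Matrix m m ℂ) (p * (A * B))) ∧
      ∀ (x : X) (q : ℚ), riemannZeta (M.deg x) ≠ q := by
  rw [graded_iff hDir hInd hp]
  constructor
  · intro h
    refine ⟨fun A B hA hB => ?_, fun x q hq => ?_⟩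
    · set G : Set (Matrix m m ℂ) := {A | ∃ g ∈ M.gp, A = ((g : (Matrix m m ℂ)ˣ) : Matrix m m ℂ)}
        with hG
      have hS : ∀ B, AllSatisfies (p : Matrix m m ℂ) B → B ∈ Submodule.span ℂ G := by
        intro B hB
        refine Pool.Agent.W351.MTH.T_SPAN m M.wt G ?_ ?_ B ?_
        · rintro σ _ ⟨g, hg, rfl⟩
          exact ⟨sg σ g, sg_mem M σ hg, rfl⟩
        · rintro μ hμ _ ⟨g, hg, rfl⟩
          exact ⟨g * dg M (Units.mk0 μ hμ), Subgroup.mul_mem _ hg (dg_mem M _), rfl⟩
        · intro n c hc hc0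
          exact hB c (hc0 _ ⟨p, hp, rfl⟩)
      have hS' : ∀ B ∈ Submodule.span ℂ G, AllSatisfies (p : Matrix m m ℂ) B := by
        intro B hB
        have h1 : Submodule.span ℂ G ≤ ASat (p : Matrix m m ℂ) := by
          rw [Submodule.span_le]
          rintro _ ⟨g, hg, rfl⟩
          exact h g hg
        exact h1 hB
      have hmul : ∀ A ∈ Submodule.span ℂ G, ∀ B ∈ Submodule.span ℂ G,
          A * B ∈ Submodule.span ℂ G := by
        intro A hA B hB
        have h1 := Submodule.mul_mem_mul hA hB
        rw [Submodule.span_mul_span] at h1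
        refine Submodule.span_mono ?_ h1
        rintro _ ⟨_, ⟨g, hg, rfl⟩, _, ⟨k, hk, rfl⟩, rfl⟩
        exact ⟨g * k, Subgroup.mul_mem _ hg hk, rfl⟩
      have hpi' : ((p⁻¹ : (Matrix m m ℂ)ˣ) : Matrix m m ℂ) ∈ Submodule.span ℂ G :=
        Submodule.subset_span ⟨p⁻¹, Subgroup.inv_mem _ hp, rfl⟩
      have hp' : (p : Matrix m m ℂ) ∈ Submodule.span ℂ G := Submodule.subset_span ⟨p, hp, rfl⟩
      have hA' : A ∈ Submodule.span ℂ G := by
        have h1 := hmul _ hpi' _ (hS _ hA)
        rwa [← mul_assoc, Units.inv_mul, one_mul] at h1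
      have hB' : B ∈ Submodule.span ℂ G := by
        have h1 := hmul _ hpi' _ (hS _ hB)
        rwa [← mul_assoc, Units.inv_mul, one_mul] at h1
      exact hS' _ (hmul _ hp' _ (hmul _ hA' _ hB'))
    · -- the relation `p_(o, s x) = q p_(o, o)`
      set c : m → m → ℚ := fun i j =>
        if i = M.o then (if j = M.s x then 1 else if j = M.o then -q else 0) else 0 with hc
      have hval : ∀ g ∈ M.gp, ∑ i, ∑ j, (c i j : ℂ) * (g : Matrix m m ℂ) i j =
          (g : Matrix m m ℂ) M.o (M.s x) - q := by
        intro g hg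
        rw [Finset.sum_eq_single M.o]
        · have h1 : ∀ j, (c M.o j : ℂ) * (g : Matrix m m ℂ) M.o j =
              (if j = M.s x then (g : Matrix m m ℂ) M.o j else 0) +
                (if j = M.o then -(q : ℂ) * (g : Matrix m m ℂ) M.o j else 0) := by
            intro j
            rw [hc]
            by_cases h2 : j = M.s x
            · have h3 : j ≠ M.o := fun h3 => o_ne_s M x (h3.symm.trans h2)
              simp [h2, (o_ne_s M x).symm]
            · by_cases h3 : j = M.o
              · simp [h3, o_ne_s M x]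
              · simp [h2, h3]
          simp only [h1]
          rw [Finset.sum_add_distrib, Finset.sum_ite_eq', Finset.sum_ite_eq',
            if_pos (Finset.mem_univ _), if_pos (Finset.mem_univ _), oo_one hg]
          ring
        · intro i _ hi
          refine Finset.sum_eq_zero fun j _ => ?_
          rw [hc]
          simp [hi]
        · intro hi
          exact absurd (Finset.mem_univ _) hi
      have h0 : ∑ i, ∑ j, (c i j : ℂ) * (p : Matrix m m ℂ) i j = 0 := by
        rw [hval p hp, hzeta, hq, sub_self]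
      have h1 := h 1 (Subgroup.one_mem _) c h0
      have h2 := h (ex M 1 x) (U0_le M (ex_mem M 1 x)) c h0
      rw [hval _ (Subgroup.one_mem _), Units.val_one, one_os] at h1
      rw [hval _ (U0_le M (ex_mem M 1 x)), ex_os, if_pos rfl] at h2
      have h3 : (1 : ℂ) = 0 := by linear_combination h2 - h1
      exact one_ne_zero h3
  · rintro ⟨h, hirr⟩
    let L : Submodule ℂ (Matrix m m ℂ) :=
      { carrier := {A | AllSatisfies (p : Matrix m m ℂ) (p * A)}
        zero_mem' := by
          have h1 := (ASat (p : Matrix m m ℂ)).zero_mem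
          rw [mem_ASat] at h1
          rw [Set.mem_ofPred_eq, mul_zero]
          exact h1
        add_mem' := by
          intro A B hA hB
          rw [Set.mem_ofPred_eq, mul_add]
          exact (ASat (p : Matrix m m ℂ)).add_mem hA hB
        smul_mem' := by
          intro e A hA
          rw [Set.mem_ofPred_eq, Matrix.mul_smul]
          exact (ASat (p : Matrix m m ℂ)).smul_mem e hA }
    have hLmem : ∀ A, A ∈ L ↔ AllSatisfies (p : Matrix m m ℂ) (p * A) := fun A => Iff.rfl
    have h1L : (1 : Matrix m m ℂ) ∈ L := by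
      rw [hLmem, mul_one]
      intro c h0
      exact h0
    have hmulL : ∀ A ∈ L, ∀ B ∈ L, A * B ∈ L := fun A hA B hB => h A B hA hB
    let G : Subgroup (Matrix m m ℂ)ˣ :=
      { carrier := {u | (u : Matrix m m ℂ) ∈ L}
        one_mem' := by
          rw [Set.mem_ofPred_eq, Units.val_one]
          exact h1L
        mul_mem' := by
          intro a b ha hb
          rw [Set.mem_ofPred_eq, Units.val_mul]
          exact hmulL _ ha _ hb
        inv_mem' := by
          intro a ha
          exact Pool.Agent.W715.MTH.T_ALG m L h1L hmulL a ha }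
    have hGmem : ∀ u : (Matrix m m ℂ)ˣ, u ∈ G ↔ (u : Matrix m m ℂ) ∈ L := fun u => Iff.rfl
    let T : Set (Matrix m m ℂ)ˣ := {g | AllSatisfies (p : Matrix m m ℂ) (g : Matrix m m ℂ)}
    have hT : IsTorsor T := by
      refine ⟨⟨{f | ∃ c : m → m → ℚ,
        ∑ i, ∑ j, (c i j : ℂ) * (p : Matrix m m ℂ) i j = 0 ∧ f = relPoly c}, ?_⟩, G, p, ?_⟩
      · ext g
        constructor
        · rintro hg f ⟨c, hc0, rfl⟩
          rw [aeval_relPoly]
          exact hg c hc0
        · intro hg c hc0
          have h2 := hg (relPoly c) ⟨c, hc0, rfl⟩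
          rwa [aeval_relPoly] at h2
      · ext g
        change AllSatisfies (p : Matrix m m ℂ) (g : Matrix m m ℂ) ↔ p⁻¹ * g ∈ G
        rw [hGmem, hLmem, ← Units.val_mul, mul_inv_cancel_left]
    have hpT : p ∈ T := by
      intro c h0
      exact h0
    have hno := (main_zeta (Pool.Agent.W906.MTZ.T_TOR Pool.Agent.W804.MTZ.T_FIT) hp hdeg hinj
      hpi hzeta).1.2 hirr
    exact fun g hg => hno T hT hpT hg

end Pool.Agent.W516.MTG
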