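import Pool.Agent.W516.MTG.Defs

/-!
# Statements of the parts of projects MTG and MTD
-/

set_option autoImplicit false

namespace Pool.Agent.W516.MTG

open Matrix Pool.Agent.W516.MTZ Pool.Agent.W516.MTH

/-- MTG-DIR. -/
def StDir : Prop :=
  ∀ (m X : Type) [Fintype m] [DecidableEq m] [Fintype X] [DecidableEq X] (M : Motive m X)
    (p : (Matrix m m ℂ)ˣ), p ∈ M.gp →
    (∀ g ∈ M.gp, Satisfies M (p : Matrix m m ℂ) (g : Matrix m m ℂ)) →
    iSupIndep (periods M (p : Matrix m m ℂ)) →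
    ∀ g ∈ M.gp, AllSatisfies (p : Matrix m m ℂ) (g : Matrix m m ℂ)

/-- MTG-IND. -/
def StInd : Prop :=
  ∀ (m X : Type) [Fintype m] [DecidableEq m] [Fintype X] [DecidableEq X] (M : Motive m X)
    (p : (Matrix m m ℂ)ˣ), p ∈ M.gp →
    (∀ g ∈ M.gp, AllSatisfies (p : Matrix m m ℂ) (g : Matrix m m ℂ)) →
    iSupIndep (periods M (p : Matrix m m ℂ))

/-- MTD-CLA. -/
def StCla : Prop :=
  ∀ n : ℕ, 2 ≤ n → 0 < ∑' k : ℕ, Real.sin (k * Real.pi / 3) / (k : ℝ) ^ n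

end Pool.Agent.W516.MTG
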